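import Mathlib
import Pool.Prelude.Def_F_25f10a9b
import Pool.Agent.Q18.P.Cent
import Pool.Agent.Q18.P.Val

/-!
# The converse of Tunnell's theorem, and Euler products on one sequence of windows

Let `n` be odd and squarefree, `E_n : y² = x³ - n² x`, `S` a finite set of primes containing those dividing `6 n`,
`P(y) = ∏_{p ∉ S, p ≤ y} #E_n(𝔽_p)/p` and `P*(y) = exp (- ∑_{p ∉ S, p^k ≤ y} (α_p^k + β_p^k)/(k p^k))` the sharp partial
Euler products, `F` the `L`-function of `E_n` without the factors at `S`, and `Ω > 0` the constant of Tunnell's formula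
`F(1) = Ω (#B_n - 2 #A_n)²`. Fix `0 < δ < 1`; the windows are `[Y^(1-δ), Y]`. All properties of `F` in `Known` are
theorems. Call `κ` admissible for `n` if `κ < 2` and `n ≡ 1, 3 mod 8`, or `κ < 3` and `n ≡ 5, 7 mod 8`.

1. If for one admissible `κ` and for arbitrarily large `Y` (one sequence, as sparse as we like)
   `∫ max (log P(y) - κ log log y, 0) dy/y ≤ B log Y` over the window, then `F` has no zeros with `Re s > 1`; for
   `n ≡ 1, 3 mod 8` the number `n` is not congruent and `2 #A_n ≠ #B_n`, for `n ≡ 5, 7 mod 8` the number `n` is congruent.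
   In particular the converse of Tunnell's theorem holds for `n`.
2. A counterexample `n` to the converse of Tunnell's theorem violates the bound in ALL windows with large `Y`, for every
   admissible `κ` and every `B`.
3. For `n ≡ 1, 3` (`r = 0`) and `n ≡ 5, 7` (`r = 1`) and any one `κ ∈ [r, r + 2)`: the Riemann hypothesis for `F` and
   order `r` at `1` ⟺ the bound of 1. for some `B` and arbitrarily large `Y` ⟺ for some `B` and all large `Y`.
4. For every integer `d ≥ 1`: the Riemann hypothesis for `F` and `|#B_n - 2 #A_n| = d` ⟺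
   `∫ |log (Ω d² P*(y))| dy/y ≤ ε log Y` for each `ε > 0` and arbitrarily large `Y` ⟺ the same for all large `Y`.
-/

set_option autoImplicit false

namespace Pool.Agent.Results.MP_05dcdc_nt.CounterexampleWindows

open Filter Topology Set Complex NumberField IsDedekindDomain MeasureTheory
open Pool.Agent.Q18.P (NoZeros Order Holo MeanBound excess)
open Pool.Agent.Q18.P.EC (Good Euler product productStar)
open N9003ba20

/-- the coefficient `- n²` of `E_n : y² = x³ - n² x` -/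
def coef (n : ℕ) : 𝓞 ℚ := -(n : 𝓞 ℚ) ^ 2

/-- What is known about the `L`-function `F` of `E_n : y² = x³ - n² x` without the Euler factors at `S`. -/
structure Known (n : ℕ) (S : Finset (HeightOneSpectrum (𝓞 ℚ))) (F : ℂ → ℂ) (Ω : ℝ) : Prop where
  sqf : Squarefree n
  odd : Odd n
  good : ∀ v, v ∉ S → Good (coef n) 0 v
  /-- the Euler product -/
  euler : Euler S (coef n) 0 F
  /-- holomorphic of polynomial growth in a half plane `Re s > 1 - η` (Deuring, Hecke) -/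
  holo : Holo 1 F
  pos : 0 < Ω
  /-- Tunnell's formula -/
  tunnell : F 1 = ((Ω * (((B n).ncard : ℝ) - 2 * (A n).ncard) ^ 2 : ℝ) : ℂ)
  /-- root number `+1` -/
  even : n % 8 = 1 ∨ n % 8 = 3 → ∀ m : ℤ, Order 1 F m → 2 ∣ m
  /-- root number `-1` -/
  odd' : n % 8 = 5 ∨ n % 8 = 7 → ∀ m : ℤ, Order 1 F m → 2 ∣ m - 1
  /-- Coates-Wiles -/
  zero : Order 1 F 0 → ¬ congruentNumber n
  /-- Gross-Zagier, Kolyvagin -/
  one : Order 1 F 1 → congruentNumber n

/-- `κ` is admissible for `n` -/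
def Admissible (n : ℕ) (κ : ℝ) : Prop := ((n % 8 = 1 ∨ n % 8 = 3) ∧ κ < 2) ∨ ((n % 8 = 5 ∨ n % 8 = 7) ∧ κ < 3)

/-- `n` is a counterexample to the converse of Tunnell's theorem -/
def Counterexample (n : ℕ) : Prop := 2 * (A n).ncard = (B n).ncard ∧ ¬ congruentNumber n

theorem mod_cases {n : ℕ} (h : Odd n) : (n % 8 = 1 ∨ n % 8 = 3) ∨ (n % 8 = 5 ∨ n % 8 = 7) := by
  obtain ⟨k, rfl⟩ := h
  omega

/-- **The converse of Tunnell's theorem and Euler products on one sequence of windows.** -/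
theorem result (n : ℕ) (S : Finset (HeightOneSpectrum (𝓞 ℚ))) (F : ℂ → ℂ) (Ω : ℝ) (h : Known n S F Ω) (δ : ℝ)
    (h0 : 0 < δ) (h1 : δ < 1) :
    -- (1) one sequence of windows
    (∀ κ B' : ℝ, Admissible n κ → (∃ᶠ Y : ℝ in atTop, MeanBound δ (excess (product S (coef n) 0) κ) B' Y) →
      NoZeros 1 F ∧ ((n % 8 = 1 ∨ n % 8 = 3) → ¬ congruentNumber n ∧ 2 * (A n).ncard ≠ (B n).ncard) ∧
      ((n % 8 = 5 ∨ n % 8 = 7) → congruentNumber n)) ∧
    -- (2) counterexamples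
    (Counterexample n → ∀ κ B' : ℝ, Admissible n κ →
      ∀ᶠ Y : ℝ in atTop, ¬ MeanBound δ (excess (product S (coef n) 0) κ) B' Y) ∧
    -- (3) the order
    (∀ r : ℤ, ((n % 8 = 1 ∨ n % 8 = 3) ∧ r = 0) ∨ ((n % 8 = 5 ∨ n % 8 = 7) ∧ r = 1) → ∀ κ : ℝ, r ≤ κ → κ < r + 2 →
      List.TFAE [
        NoZeros 1 F ∧ Order 1 F r,
        ∃ B' : ℝ, ∃ᶠ Y : ℝ in atTop, MeanBound δ (excess (product S (coef n) 0) κ) B' Y,
        ∃ B' : ℝ, ∀ᶠ Y : ℝ in atTop, MeanBound δ (excess (product S (coef n) 0) κ) B' Y]) ∧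
    -- (4) the number of Tunnell
    (∀ d : ℕ, 0 < d → List.TFAE [
      NoZeros 1 F ∧ |((B n).ncard : ℤ) - 2 * (A n).ncard| = d,
      ∀ ε : ℝ, 0 < ε → ∃ᶠ Y : ℝ in atTop,
        MeanBound δ (fun y => |Real.log (Ω * d ^ 2 * productStar S (coef n) 0 y)|) ε Y,
      ∀ ε : ℝ, 0 < ε → ∀ᶠ Y : ℝ in atTop,
        MeanBound δ (fun y => |Real.log (Ω * d ^ 2 * productStar S (coef n) 0 y)|) ε Y]) := by
  have hP := Pool.Agent.Q18.P.EC.pure (a := coef n) (b := 0) h.good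
  have hE' := Pool.Agent.Q18.P.EC.euler h.good h.euler
  rw [Pool.Agent.Q18.P.EC.star_eq h.good, Pool.Agent.Q18.P.EC.product_eq h.good]
  set α := Pool.Agent.Q18.P.EC.al (coef n) 0 with hα
  have L := Pool.Agent.Q18.P.laws Pool.Agent.Q18.P.EC.one_c hP.le h.holo hE' h0 h1
  -- the order from the bound
  have hord : ∀ r : ℤ, (((n % 8 = 1 ∨ n % 8 = 3) ∧ r = 0) ∨ ((n % 8 = 5 ∨ n % 8 = 7) ∧ r = 1)) →
      ∀ m : ℤ, Order 1 F m → 2 ∣ m - r := by
    rintro r (⟨h2, rfl⟩ | ⟨h2, rfl⟩) m hm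
    · rw [sub_zero]
      exact h.even h2 m hm
    · exact h.odd' h2 m hm
  have key : ∀ r : ℤ, (((n % 8 = 1 ∨ n % 8 = 3) ∧ r = 0) ∨ ((n % 8 = 5 ∨ n % 8 = 7) ∧ r = 1)) → ∀ κ B' : ℝ,
      κ < r + 2 → (∃ᶠ Y : ℝ in atTop, MeanBound δ (excess (Pool.Agent.Q18.P.product 1 S α) κ) B' Y) →
      NoZeros 1 F ∧ Order 1 F r := by
    intro r hr κ B' hκ hB
    have t : (NoZeros 1 F ∧ ∃ m : ℤ, Order 1 F m ∧ (m : ℝ) ≤ κ) ↔
      ∃ B : ℝ, ∃ᶠ Y : ℝ in atTop, MeanBound δ (excess (Pool.Agent.Q18.P.product 1 S α) κ) B Y := (L.upper κ).out 0 1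
    obtain ⟨hz, m, hm, hmκ⟩ := t.2 ⟨B', hB⟩
    have h5 := hord r hr m hm
    have h6 := Pool.Agent.Q18.P.order_nonneg h.holo hm
    have h7 : (m : ℝ) < r + 2 := lt_of_le_of_lt hmκ hκ
    have h8 : m < r + 2 := by exact_mod_cast h7
    have h9 : r = 0 ∨ r = 1 := by
      rcases hr with ⟨_, h⟩ | ⟨_, h⟩
      · exact Or.inl h
      · exact Or.inr h
    have h10 : m = r := by omega
    exact ⟨hz, h10 ▸ hm⟩
  have e1 : ((1 : ℝ) : ℂ) = 1 := Complex.ofReal_one
  have hv := Pool.Agent.Q18.P.value_iff h.holo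
  rw [e1] at hv
  have hval : Order 1 F 0 → 2 * (A n).ncard ≠ (B n).ncard := by
    intro ho he
    refine hv.1 ho ?_
    rw [h.tunnell]
    have : ((B n).ncard : ℝ) = 2 * (A n).ncard := by exact_mod_cast he.symm
    rw [this, sub_self]
    simp
  have first : ∀ κ B' : ℝ, Admissible n κ →
      (∃ᶠ Y : ℝ in atTop, MeanBound δ (excess (Pool.Agent.Q18.P.product 1 S α) κ) B' Y) →
      NoZeros 1 F ∧ ((n % 8 = 1 ∨ n % 8 = 3) → ¬ congruentNumber n ∧ 2 * (A n).ncard ≠ (B n).ncard) ∧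
      ((n % 8 = 5 ∨ n % 8 = 7) → congruentNumber n) := by
    intro κ B' hκ hB
    rcases hκ with ⟨hn, hκ⟩ | ⟨hn, hκ⟩
    · obtain ⟨hz, ho⟩ := key 0 (Or.inl ⟨hn, rfl⟩) κ B' (by rw [Int.cast_zero, zero_add]; exact hκ) hB
      exact ⟨hz, fun _ => ⟨h.zero ho, hval ho⟩, fun h2 => by omega⟩
    · obtain ⟨hz, ho⟩ := key 1 (Or.inr ⟨hn, rfl⟩) κ B' (by rw [Int.cast_one]; linarith) hB
      exact ⟨hz, fun h2 => by omega, fun _ => h.one ho⟩
  refine ⟨first, fun hc κ B' hκ => ?_, fun r hr κ hr1 hr2 => ?_, fun d hd => ?_⟩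
  · by_contra hne
    rw [Filter.not_eventually] at hne
    have hB : ∃ᶠ Y : ℝ in atTop, MeanBound δ (excess (Pool.Agent.Q18.P.product 1 S α) κ) B' Y :=
      hne.mono fun Y hY => not_not.1 hY
    obtain ⟨-, f1, f2⟩ := first κ B' hκ hB
    rcases mod_cases h.odd with hn | hn
    · exact (f1 hn).2 hc.1
    · exact hc.2 (f2 hn)
  · have t := L.parity (r := r) (hord r hr) hr1 hr2
    have e2 : (NoZeros 1 F ∧ ∃ m : ℤ, Order 1 F m ∧ m ≤ r) ↔ NoZeros 1 F ∧ Order 1 F r := by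
      refine and_congr_right fun _ => ⟨?_, fun h2 => ⟨r, h2, le_rfl⟩⟩
      rintro ⟨m, hm, hmr⟩
      have h5 := hord r hr m hm
      have h6 := Pool.Agent.Q18.P.order_nonneg h.holo hm
      have h9 : r = 0 ∨ r = 1 := by
        rcases hr with ⟨_, h⟩ | ⟨_, h⟩
        · exact Or.inl h
        · exact Or.inr h
      have h10 : m = r := by omega
      exact h10 ▸ hm
    rw [e2] at t
    exact t
  · have hd' : (0 : ℝ) < d := by exact_mod_cast hd
    have hA : 0 < Ω * (d : ℝ) ^ 2 := mul_pos h.pos (pow_pos hd' 2)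
    have t := Pool.Agent.Q18.P.value_real Pool.Agent.Q18.P.EC.one_c hP h.holo hE' h0 h1 hA
    have e2 : (NoZeros 1 F ∧ F ((1 : ℝ) : ℂ) = ((Ω * (d : ℝ) ^ 2 : ℝ) : ℂ)) ↔
        (NoZeros 1 F ∧ |((B n).ncard : ℤ) - 2 * (A n).ncard| = d) := by
      refine and_congr_right fun _ => ?_
      rw [e1, h.tunnell, Complex.ofReal_inj, mul_right_inj' h.pos.ne', sq_eq_sq_iff_abs_eq_abs, abs_of_pos hd']
      rw [← Int.cast_inj (α := ℝ)]
      push_cast
      rfl
    rw [e2] at t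
    exact t

end Pool.Agent.Results.MP_05dcdc_nt.CounterexampleWindows
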