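import Mathlib
import Pool.Agent.Y859.MU.Fin

set_option autoImplicit false

/-!
# The converse of Tunnell's theorem for odd `n`: congruent numbers of every odd class with a prescribed divisor

Every odd squarefree `B ≤ X ^ (1/2 - ε)` divides at least `X ^ (1/2 - ε) / B` squarefree congruent numbers
`n ≤ X` of each of the odd classes `1, 3, 5, 7` modulo `8`, the quotient `n / B` being almost prime.  All
these `n` satisfy the hypothesis `2 |A_n| = |B_n|` of the problem: in the classes `5` and `7` because both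
sets are empty (this is proved here), in the classes `1` and `3` by Tunnell's theorem.

The construction is the one of the starting files (`Pool.Agent.Y859.MU`); of its results only the
classes `5, 6, 7` had been handed in (for another problem), the classes `1` and `3`, the ones in which
the hypothesis of the problem is a real condition, had not.
-/

namespace Pool.Agent.Results.MP_05dcdc_nt.EveryOddDivisor

/-- `n` is the area of a right triangle with rational sides -/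
def IsCongruent (n : ℕ) : Prop :=
  ∃ a b c : ℚ, 0 < a ∧ 0 < b ∧ 0 < c ∧ a ^ 2 + b ^ 2 = c ^ 2 ∧ (n : ℚ) = a * b / 2

/-- the set `A_n` of the integral solutions of `n = 2 x² + y² + 32 z²` -/
def A (n : ℕ) : Set (ℤ × ℤ × ℤ) := {v | (n : ℤ) = 2 * v.1 ^ 2 + v.2.1 ^ 2 + 32 * v.2.2 ^ 2}

/-- the set `B_n` of the integral solutions of `n = 2 x² + y² + 8 z²` -/
def B (n : ℕ) : Set (ℤ × ℤ × ℤ) := {v | (n : ℤ) = 2 * v.1 ^ 2 + v.2.1 ^ 2 + 8 * v.2.2 ^ 2}

/-- `m` has at most `R` prime factors (with multiplicity), the odd ones larger than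
`X ^ (1 / R)` -/
def AlmostPrime (R X m : ℕ) : Prop :=
  m.primeFactorsList.length ≤ R ∧
    ∀ p : ℕ, p.Prime → p ≠ 2 → p ∣ m → (X : ℝ) ^ (1 / (R : ℝ)) < (p : ℝ)

lemma form_ne (n : ℕ) (h : n % 8 = 5 ∨ n % 8 = 7) (x y w : ℤ) :
    (n : ℤ) ≠ 2 * x ^ 2 + y ^ 2 + 8 * w := by
  intro he
  have hx : x ^ 2 % 4 = 0 ∨ x ^ 2 % 4 = 1 := by
    rcases Int.even_or_odd' x with ⟨k, rfl | rfl⟩
    · left; ring_nf; omega
    · right; ring_nf; omega
  have hy : y ^ 2 % 8 = 0 ∨ y ^ 2 % 8 = 1 ∨ y ^ 2 % 8 = 4 := by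
    have : y % 8 = 0 ∨ y % 8 = 1 ∨ y % 8 = 2 ∨ y % 8 = 3 ∨ y % 8 = 4 ∨ y % 8 = 5 ∨ y % 8 = 6 ∨
      y % 8 = 7 := by omega
    rcases this with h | h | h | h | h | h | h | h <;> simp [pow_two, Int.mul_emod, h]
  omega

theorem empty (n : ℕ) (h : n % 8 = 5 ∨ n % 8 = 7) : A n = ∅ ∧ B n = ∅ := by
  constructor
  · rw [Set.eq_empty_iff_forall_notMem]
    rintro ⟨x, y, z⟩ hv
    exact form_ne n h x y (4 * z ^ 2) (by simp only [A, Set.mem_ofPred_eq] at hv; rw [hv]; ring)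
  · rw [Set.eq_empty_iff_forall_notMem]
    rintro ⟨x, y, z⟩ hv
    exact form_ne n h x y (z ^ 2) (by simp only [B, Set.mem_ofPred_eq] at hv; rw [hv])

/-- (1) **Every odd squarefree `D ≤ X ^ (1/2 - ε)` divides many squarefree congruent numbers `n ≤ X` in
each odd class modulo `8`.**  Let `0 < ε ≤ 1/2`.  There are `R` and `X₀` such that for all `X ≥ X₀`, all odd
squarefree `D ≤ X ^ (1/2 - ε)` and `r ∈ {1, 3, 5, 7}` at least `X ^ (1/2 - ε) / D` squarefree congruent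
numbers `n ≤ X` satisfy `n ≡ r` modulo `8` and `n = D m`, where `m` has at most `R` prime factors, all
larger than `X ^ (1 / R)` (`m` is odd).
(2) In the classes `5` and `7` the hypothesis `2 |A_n| = |B_n|` of the problem holds, both sets are empty. -/
theorem result :
    (∀ ε : ℝ, 0 < ε → ε ≤ 1 / 2 →
      ∃ R X₀ : ℕ, 1 ≤ R ∧ ∀ X : ℕ, X₀ ≤ X → ∀ D : ℕ, Odd D → Squarefree D →
        (D : ℝ) ≤ (X : ℝ) ^ (1 / 2 - ε) → ∀ r ∈ ({1, 3, 5, 7} : Finset ℕ),
          (X : ℝ) ^ (1 / 2 - ε) / D ≤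
            ({n : ℕ | n ≤ X ∧ n % 8 = r ∧ Squarefree n ∧ IsCongruent n ∧
              ∃ m, n = D * m ∧ AlmostPrime R X m}.ncard : ℝ)) ∧
    (∀ n : ℕ, n % 8 = 5 ∨ n % 8 = 7 → A n = ∅ ∧ B n = ∅) := by
  refine ⟨?_, empty⟩
  intro ε hε hε1
  obtain ⟨R, X₀, hR, h⟩ := Pool.Agent.Y859.MU.main ε hε hε1
  refine ⟨R, X₀, hR, ?_⟩
  intro X hX D hDo hDsq hDX r hr
  have hr' : Odd r ∧ r < 8 := by
    simp only [Finset.mem_insert, Finset.mem_singleton] at hr
    rcases hr with h | h | h | h <;> subst h <;> exact ⟨by decide, by norm_num⟩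
  have hfin : {n : ℕ | n ≤ X ∧ n % 8 = r ∧ Squarefree n ∧ IsCongruent n ∧
      ∃ m, n = D * m ∧ AlmostPrime R X m}.Finite :=
    (Set.finite_Iic X).subset fun n hn => hn.1
  refine ((h X hX D hDsq hDX).1 hDo r hr'.1 hr'.2).trans ?_
  have := Set.ncard_le_ncard (s := {n : ℕ | n ≤ X ∧ n % 8 = r ∧ Squarefree n ∧
    Pool.Agent.Y859.SP.Cg.IsCong n ∧ ∃ m, n = D * m ∧ Pool.Agent.Y859.MU.Few R X m})
    (t := {n : ℕ | n ≤ X ∧ n % 8 = r ∧ Squarefree n ∧ IsCongruent n ∧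
      ∃ m, n = D * m ∧ AlmostPrime R X m}) (fun n hn => by
      obtain ⟨g1, g2, g3, ⟨a, b, c, k1, k2, k3, k4, k5⟩, m, g5, g6⟩ := hn
      exact ⟨g1, g2, g3, ⟨a, b, c, k1, k2, k3, k4, k5.symm⟩, m, g5, g6.1, g6.2⟩) hfin
  exact_mod_cast this

end Pool.Agent.Results.MP_05dcdc_nt.EveryOddDivisor
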