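import Mathlib
import Pool.Prelude.Def_F_25f10a9b
import Pool.Agent.Q190.RV.Tunnell

/-!
# The converse of Tunnell's theorem for odd numbers, and one exponent

Let `n` be odd and squarefree, `E_n : y² = x³ - n² x`, `S` a finite set of primes containing those dividing `6 n`,
`P(y) = ∏_{p ∉ S, p ≤ y} #E_n(𝔽_p)/p` and `P*(y) = exp (- ∑_{p ∉ S, p^k ≤ y} (α_p^k + β_p^k)/(k p^k))` the sharp partial
Euler products, `F` the `L`-function of `E_n` without the factors at `S`, and `Ω > 0` the constant of Tunnell's formula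
`F(1) = Ω (#B_n - 2 #A_n)²`. All properties of `F` in `Known` are theorems. Put `w = 0` if `n ≡ 1, 3 mod 8`, and
`w = 1` if `n ≡ 5, 7 mod 8` (the root number is `(-1)^w`). No power of `log y` and nothing on zeros is used. For `R = P` and
`R = P*`:

1. If `R(y^l) ≤ Q R(y)` for all large `y`, for ONE `l > 1` and one `Q < l^(w+2)`, then `F` has no zeros with `Re s > 1`, and
   `n` is not congruent and `2 #A_n ≠ #B_n` if `w = 0`, `n` is congruent if `w = 1`. In particular the converse of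
   Tunnell's theorem holds for `n`; for example if `R(y²) ≤ 3.99 R(y)` for all large `y`.
2. If `n` is a counterexample to the converse of Tunnell's theorem, then for every `l > 1` and `Q < l^(w+2)` there are
   arbitrarily large `y` with `R(y^l) > Q R(y)`.
3. If `R(y^l) / R(y)` converges to `ρ` for one `l > 1`, then `F` has no zeros with `Re s > 1`, and `ord_{s=1} F = w` ⟺
   `ρ = l^w` ⟺ `ρ < l^(w+2)`; for `w = 0` this is equivalent to `2 #A_n ≠ #B_n`, and `n` is not congruent then; for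
   `w = 1` it implies that `n` is congruent.
4. For every integer `d ≥ 1`: `Ω d² P*(y)` converges to `1` if and only if `|#B_n - 2 #A_n| = d` and `P*` is slowly
   varying from above at many exponents: for all `l` in a set of positive outer measure in `(1, ∞)` and all `ε > 0`,
   `P*(y^l) ≤ (1 + ε) P*(y)` for all large `y`.
-/

set_option autoImplicit false

namespace Pool.Agent.Results.MP_05dcdc_nt.OneExponent

open Filter Topology Set Complex NumberField IsDedekindDomain MeasureTheory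
open Pool.Agent.Q18.P.EC (Good Euler product productStar)
open N9003ba20

/-- the coefficient `- n²` of `E_n : y² = x³ - n² x` -/
def coef (n : ℕ) : 𝓞 ℚ := -(n : 𝓞 ℚ) ^ 2

/-- What is known about the `L`-function `F` of `E_n : y² = x³ - n² x` without the Euler factors at `S`. -/
structure Known (n : ℕ) (S : Finset (HeightOneSpectrum (𝓞 ℚ))) (F : ℂ → ℂ) (Ω : ℝ) : Prop where
  sqf : Squarefree n
  par : Odd n
  good : ∀ v, v ∉ S → Good (coef n) 0 v
  /-- the Euler product -/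
  euler : Euler S (coef n) 0 F
  /-- holomorphic of polynomial growth in a half plane `Re s > 1 - η` (Deuring, Hecke) -/
  holo : ∃ (η C : ℝ) (k : ℕ), 0 < η ∧ ∀ s : ℂ, 1 - η < s.re → DifferentiableAt ℂ F s ∧ ‖F s‖ ≤ C * (1 + ‖s‖) ^ k
  pos : 0 < Ω
  /-- Tunnell's formula -/
  tunnell : F 1 = ((Ω * (((B n).ncard : ℝ) - 2 * (A n).ncard) ^ 2 : ℝ) : ℂ)
  /-- root number `+1` -/
  even : n % 8 = 1 ∨ n % 8 = 3 → ∀ m : ℕ, analyticOrderAt F 1 = m → Even m
  /-- root number `-1` -/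
  odd : n % 8 = 5 ∨ n % 8 = 7 → ∀ m : ℕ, analyticOrderAt F 1 = m → Odd m
  /-- Coates-Wiles -/
  zero : F 1 ≠ 0 → ¬ congruentNumber n
  /-- Gross-Zagier, Kolyvagin -/
  one : analyticOrderAt F 1 = 1 → congruentNumber n

/-- `(-1)^w` is the root number of `E_n` -/
def Sign (n w : ℕ) : Prop := ((n % 8 = 1 ∨ n % 8 = 3) ∧ w = 0) ∨ ((n % 8 = 5 ∨ n % 8 = 7) ∧ w = 1)

/-- `n` is a counterexample to the converse of Tunnell's theorem -/
def Counterexample (n : ℕ) : Prop := 2 * (A n).ncard = (B n).ncard ∧ ¬ congruentNumber n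

/-- `F` has no zeros with `Re s > 1`. -/
def NoZeros (F : ℂ → ℂ) : Prop := ∀ s : ℂ, 1 < s.re → F s ≠ 0

/-- There is a set `Λ ⊆ (1, ∞)` of positive (outer) Lebesgue measure such that for every `l ∈ Λ` and `ε > 0`,
`P(y^l) ≤ (1 + ε) P(y)` for all large `y`. -/
def Slow (P : ℝ → ℝ) : Prop :=
  ∃ Λ : Set ℝ, Λ ⊆ Ioi 1 ∧ volume Λ ≠ 0 ∧ ∀ l ∈ Λ, ∀ ε : ℝ, 0 < ε → ∀ᶠ y : ℝ in atTop, P (y ^ l) ≤ (1 + ε) * P y

/-- **The converse of Tunnell's theorem and one exponent.** -/
theorem result (n w : ℕ) (hw : Sign n w) (S : Finset (HeightOneSpectrum (𝓞 ℚ))) (F : ℂ → ℂ) (Ω : ℝ)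
    (h : Known n S F Ω) :
    (∀ R : ℝ → ℝ, R = product S (coef n) 0 ∨ R = productStar S (coef n) 0 →
      -- (1) one exponent
      (∀ l Q : ℝ, 1 < l → Q < l ^ (w + 2) → (∀ᶠ y : ℝ in atTop, R (y ^ l) ≤ Q * R y) →
        NoZeros F ∧ (w = 0 → ¬ congruentNumber n ∧ 2 * (A n).ncard ≠ (B n).ncard) ∧
        (w = 1 → congruentNumber n)) ∧
      -- (2) counterexamples
      (Counterexample n → ∀ l Q : ℝ, 1 < l → Q < l ^ (w + 2) → ∃ᶠ y : ℝ in atTop, Q * R y < R (y ^ l)) ∧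
      -- (3) the limit for one exponent
      (∀ l ρ : ℝ, 1 < l → Tendsto (fun y : ℝ => R (y ^ l) / R y) atTop (𝓝 ρ) →
        NoZeros F ∧ (analyticOrderAt F 1 = w ↔ ρ = l ^ w) ∧ (analyticOrderAt F 1 = w ↔ ρ < l ^ (w + 2)) ∧
        (w = 0 → (ρ < l ^ (w + 2) ↔ 2 * (A n).ncard ≠ (B n).ncard)) ∧
        (w = 0 → ρ < l ^ (w + 2) → ¬ congruentNumber n) ∧ (w = 1 → ρ < l ^ (w + 2) → congruentNumber n))) ∧
    -- (4) the number of Tunnell
    (∀ d : ℕ, 0 < d → (Tendsto (fun y : ℝ => Ω * d ^ 2 * productStar S (coef n) 0 y) atTop (𝓝 1) ↔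
      |((B n).ncard : ℤ) - 2 * (A n).ncard| = d ∧ Slow (productStar S (coef n) 0))) := by
  obtain ⟨m, hm, hR⟩ := Pool.Agent.Q190.RV.Tunnell.both h.good h.euler h.holo
  have hpar : m % 2 = w % 2 := by
    rcases hw with ⟨h1, rfl⟩ | ⟨h1, rfl⟩
    · exact Nat.even_iff.1 (h.even h1 m hm)
    · exact Nat.odd_iff.1 (h.odd h1 m hm)
  have hw1 : w ≤ 1 := by
    rcases hw with ⟨-, rfl⟩ | ⟨-, rfl⟩
    · exact Nat.zero_le _
    · exact le_rfl
  have han : AnalyticAt ℂ F 1 := by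
    have := (Pool.Agent.Q190.RV.Tunnell.holo h.good h.euler h.holo).analytic.1
    rwa [Complex.ofReal_one] at this
  have hne : m = 0 ↔ F 1 ≠ 0 := by
    have h1 := han.analyticOrderAt_eq_zero
    rw [hm] at h1
    rw [← h1]
    exact Nat.cast_eq_zero.symm
  have hT : F 1 ≠ 0 ↔ 2 * (A n).ncard ≠ (B n).ncard := by
    rw [h.tunnell, not_iff_not]
    constructor
    · intro h1
      have h2 : Ω * (((B n).ncard : ℝ) - 2 * (A n).ncard) ^ 2 = 0 := by exact_mod_cast h1
      have h3 := (mul_eq_zero.1 h2).resolve_left h.pos.ne'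
      have h4 : ((B n).ncard : ℝ) - 2 * (A n).ncard = 0 := by
        simpa using h3
      have h5 : ((2 * (A n).ncard : ℕ) : ℝ) = ((B n).ncard : ℝ) := by
        push_cast
        linarith
      exact_mod_cast h5
    · intro h1
      have h5 : ((2 * (A n).ncard : ℕ) : ℝ) = ((B n).ncard : ℝ) := by rw [h1]
      push_cast at h5
      rw [← h5]
      simp
  have hmw : analyticOrderAt F 1 = w ↔ m = w := by
    rw [hm]
    exact Nat.cast_inj
  have fin0 : w = 0 → m = w → ¬ congruentNumber n ∧ 2 * (A n).ncard ≠ (B n).ncard := by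
    intro h1 h2
    have h3 := hne.1 (h2.trans h1)
    exact ⟨h.zero h3, hT.1 h3⟩
  have fin1 : w = 1 → m = w → congruentNumber n := by
    intro h1 h2
    refine h.one ?_
    rw [hm, h2, h1, Nat.cast_one]
  refine ⟨fun R hR' => ⟨fun l Q hl hQ h1 => ?_, fun hc l Q hl hQ => ?_, fun l ρ hl hρ => ?_⟩, fun d hd => ?_⟩
  · obtain ⟨h2, h3⟩ := Pool.Agent.Q190.RV.Tunnell.upper_w (hR R hR') hpar hw1 hl h1 hQ
    exact ⟨h2, fun h4 => fin0 h4 h3, fun h4 => fin1 h4 h3⟩
  · refine Pool.Agent.Q190.RV.Tunnell.freq_w (hR R hR') hpar hw1 (fun h3 => ?_) hl hQ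
    rcases (by omega : w = 0 ∨ w = 1) with h4 | h4
    · exact (fin0 h4 h3).2 hc.1
    · exact hc.2 (fin1 h4 h3)
  · obtain ⟨h2, h3, h4⟩ := Pool.Agent.Q190.RV.Tunnell.limit_w (hR R hR') hpar hw1 hl hρ
    refine ⟨h2, by rw [hmw]; exact h3, by rw [hmw]; exact h4, fun h5 => ?_, fun h5 h6 => (fin0 h5 (h4.2 h6)).1,
      fun h5 h6 => fin1 h5 (h4.2 h6)⟩
    rw [← h4, ← hT, ← hne, h5]
  · have hT' : F 1 = ((Ω * ((((B n).ncard : ℤ) - 2 * (A n).ncard : ℤ) : ℝ) ^ 2 : ℝ) : ℂ) := by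
      rw [h.tunnell]
      push_cast
      rfl
    exact Pool.Agent.Q190.RV.Tunnell.value h.good h.euler h.holo h.pos hT' hd

end Pool.Agent.Results.MP_05dcdc_nt.OneExponent
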